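import Mathlib
import Pool.Agent.H242.GX.Stm

/-!
# GX-LOGMAP (helper299 for helper242): the map `Sm` in logarithmic coordinates
-/

set_option autoImplicit false

open Set Filter Topology
open scoped ContDiff

namespace Pool.Agent.H299.GX

open Pool.Agent.H242.GX

/-- Periodicity of the quotient in Hadamard's lemma. -/
lemma per_of_mul {f g : ℝ × ℝ → ℝ} (hg : Continuous g)
    (hf : ∀ θ t : ℝ, f (θ + 2 * Real.pi, t) = f (θ, t)) (h : ∀ θ t : ℝ, f (θ, t) = t * g (θ, t)) :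
    ∀ θ t : ℝ, g (θ + 2 * Real.pi, t) = g (θ, t) := by
  intro θ
  have h1 : (fun t : ℝ => g (θ + 2 * Real.pi, t)) = fun t => g (θ, t) := by
    refine Continuous.ext_on (s := {0}ᶜ) (dense_compl_singleton 0) (by fun_prop) (by fun_prop) ?_
    intro t ht
    have ht' : t ≠ 0 := ht
    have h2 := hf θ t
    rw [h, h] at h2
    exact mul_left_cancel₀ ht' h2
  intro t
  exact congrFun h1 t

/-- the norm of the derivatives of a pair -/
lemma pair_bound {f g : ℝ × ℝ → ℝ} (hf : ContDiff ℝ ∞ f) (hg : ContDiff ℝ ∞ g) (i : ℕ) (x : ℝ × ℝ) :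
    ‖iteratedFDeriv ℝ i (fun x => (f x, g x)) x‖ ≤ max ‖iteratedFDeriv ℝ i f x‖ ‖iteratedFDeriv ℝ i g x‖ := by
  rw [iteratedFDeriv_prodMk hf.contDiffAt hg.contDiffAt (by exact_mod_cast le_top)]
  exact (ContinuousMultilinearMap.opNorm_prod _ _).le

/-- uniform positivity near the axis -/
lemma tube {A C : ℝ × ℝ → ℝ} (hA : Continuous A) (hC : Continuous C)
    (pA : ∀ θ t : ℝ, A (θ + 2 * Real.pi, t) = A (θ, t)) (pC : ∀ θ t : ℝ, C (θ + 2 * Real.pi, t) = C (θ, t))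
    (A0 : ∀ θ : ℝ, 0 < A (θ, 0)) (C0 : ∀ θ : ℝ, C (θ, 0) = 1) :
    ∃ t₀ a₀ : ℝ, 0 < t₀ ∧ 0 < a₀ ∧ ∀ θ t : ℝ, |t| ≤ 2 * t₀ → a₀ < A (θ, t) ∧ 1 / 2 < C (θ, t) := by
  have hK : IsCompact (Icc (0 : ℝ) (2 * Real.pi)) := isCompact_Icc
  have hpi : 0 < 2 * Real.pi := Real.two_pi_pos
  obtain ⟨θ₀, -, hmin⟩ := hK.exists_isMinOn (nonempty_Icc.mpr hpi.le)
    (f := fun θ => A (θ, 0)) (by fun_prop)
  set a₀ := A (θ₀, 0) / 2 with ha₀
  have ha₀p : 0 < a₀ := half_pos (A0 θ₀)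
  have hopen : IsOpen {x : ℝ × ℝ | a₀ < A x ∧ 1 / 2 < C x} :=
    (isOpen_lt continuous_const hA).inter (isOpen_lt continuous_const hC)
  have hsub : Icc (0 : ℝ) (2 * Real.pi) ×ˢ ({0} : Set ℝ) ⊆ {x : ℝ × ℝ | a₀ < A x ∧ 1 / 2 < C x} := by
    rintro ⟨θ, t⟩ ⟨h1, h2⟩
    have h2' : t = 0 := h2
    subst h2'
    refine ⟨?_, ?_⟩
    · have := hmin h1
      have h3 : A (θ₀, 0) ≤ A (θ, 0) := this
      have := A0 θ₀
      show a₀ < A (θ, 0)
      rw [ha₀]; linarith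
    · show 1 / 2 < C (θ, 0)
      rw [C0]; norm_num
  obtain ⟨u, v, -, hv, hu, h0v, huv⟩ := generalized_tube_lemma hK isCompact_singleton hopen hsub
  have h0 : v ∈ 𝓝 (0 : ℝ) := hv.mem_nhds (h0v rfl)
  obtain ⟨ε, hε, hball⟩ := Metric.mem_nhds_iff.mp h0
  refine ⟨ε / 4, a₀, by positivity, ha₀p, ?_⟩
  intro θ t ht
  have hper : Function.Periodic (fun θ : ℝ => (A (θ, t), C (θ, t))) (2 * Real.pi) := by
    intro θ
    simp only [pA, pC]
  obtain ⟨y, hy, hxy⟩ := hper.exists_mem_Ico₀ hpi θ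
  have hmem : (y, t) ∈ {x : ℝ × ℝ | a₀ < A x ∧ 1 / 2 < C x} := by
    apply huv
    refine ⟨hu ⟨hy.1, hy.2.le⟩, hball ?_⟩
    rw [Metric.mem_ball, Real.dist_eq, sub_zero]
    linarith
  have e1 : A (θ, t) = A (y, t) := congrArg Prod.fst hxy
  have e2 : C (θ, t) = C (y, t) := congrArg Prod.snd hxy
  rw [e1, e2]
  exact hmem

theorem gx_LOGMAP (hSMAP : S_SMAP) (hLOGB : S_LOGB) (hHAD : S_HAD) : S_LOGMAP := by
  intro X Z hW
  obtain ⟨A, C, hA, hC, pA, pC, A0, C0, hSm⟩ := hSMAP X Z hW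
  obtain ⟨t₀, a₀, ht₀, ha₀, hAC⟩ := tube hA.continuous hC.continuous pA pC A0 C0
  let bb : ContDiffBump (0 : ℝ) := ⟨t₀, 2 * t₀, ht₀, by linarith⟩
  have hbb : ContDiff ℝ ∞ (fun x : ℝ × ℝ => bb x.2) := bb.contDiff.comp contDiff_snd
  have bb1 : ∀ t : ℝ, |t| ≤ t₀ → bb t = 1 := by
    intro t ht
    apply bb.one_of_mem_closedBall
    rw [Metric.mem_closedBall, Real.dist_eq, sub_zero]
    exact ht
  have bb0 : ∀ t : ℝ, 2 * t₀ < |t| → bb t = 0 := by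
    intro t ht
    apply bb.zero_of_le_dist
    rw [Real.dist_eq, sub_zero]
    exact ht.le
  -- the modified functions
  set A₁ : ℝ × ℝ → ℝ := fun x => bb x.2 * A x + (1 - bb x.2) * a₀ with hA₁
  set C₁ : ℝ × ℝ → ℝ := fun x => 1 + bb x.2 * (C x - 1) with hC₁
  have sA₁ : ContDiff ℝ ∞ A₁ := (hbb.mul hA).add ((contDiff_const.sub hbb).mul contDiff_const)
  have sC₁ : ContDiff ℝ ∞ C₁ := contDiff_const.add (hbb.mul (hC.sub contDiff_const))
  have pA₁ : ∀ θ t : ℝ, A₁ (θ + 2 * Real.pi, t) = A₁ (θ, t) := by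
    intro θ t; simp only [hA₁, pA]
  have pC₁ : ∀ θ t : ℝ, C₁ (θ + 2 * Real.pi, t) = C₁ (θ, t) := by
    intro θ t; simp only [hC₁, pC]
  have lA₁ : ∀ x, a₀ ≤ A₁ x := by
    rintro ⟨θ, t⟩
    have hb0 : 0 ≤ bb t := bb.nonneg
    have hb1 : bb t ≤ 1 := bb.le_one
    by_cases ht : |t| ≤ 2 * t₀
    · have h := (hAC θ t ht).1
      show a₀ ≤ bb t * A (θ, t) + (1 - bb t) * a₀
      nlinarith
    · have h := bb0 t (not_le.mp ht)
      show a₀ ≤ bb t * A (θ, t) + (1 - bb t) * a₀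
      rw [h]; simp
  have lC₁ : ∀ x, 1 / 2 ≤ C₁ x := by
    rintro ⟨θ, t⟩
    have hb0 : 0 ≤ bb t := bb.nonneg
    have hb1 : bb t ≤ 1 := bb.le_one
    by_cases ht : |t| ≤ 2 * t₀
    · have h := (hAC θ t ht).2
      show 1 / 2 ≤ 1 + bb t * (C (θ, t) - 1)
      nlinarith
    · have h := bb0 t (not_le.mp ht)
      show 1 / 2 ≤ 1 + bb t * (C (θ, t) - 1)
      rw [h]; norm_num
  have posC₁ : ∀ x, 0 < C₁ x := fun x => lt_of_lt_of_le (by norm_num) (lC₁ x)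
  have slog : ContDiff ℝ ∞ (fun x => Real.log (C₁ x)) := sC₁.log (fun x => (posC₁ x).ne')
  obtain ⟨B₁, sB₁, hB₁⟩ := hHAD (fun x => Real.log (C₁ x)) slog (by
    intro θ
    show Real.log (1 + bb 0 * (C (θ, 0) - 1)) = 0
    rw [C0]; simp)
  have pB₁ : ∀ θ t : ℝ, B₁ (θ + 2 * Real.pi, t) = B₁ (θ, t) :=
    per_of_mul (f := fun x => Real.log (C₁ x)) sB₁.continuous (by intro θ t; simp only [pC₁]) hB₁
  -- the map
  set F : ℝ × ℝ → ℝ := fun x => Real.exp x.2 ^ 1 * (fun y => -(t₀ * A₁ y)) (x.1, t₀ * Real.exp x.2) with hF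
  set G : ℝ × ℝ → ℝ := fun x => Real.exp x.2 ^ 1 * (fun y => t₀ * B₁ y) (x.1, t₀ * Real.exp x.2) with hG
  have sF0 : ContDiff ℝ ∞ (fun y => -(t₀ * A₁ y)) := (contDiff_const.mul sA₁).neg
  have sG0 : ContDiff ℝ ∞ (fun y => t₀ * B₁ y) := contDiff_const.mul sB₁
  have sq : ContDiff ℝ ∞ (fun x : ℝ × ℝ => (x.1, t₀ * Real.exp x.2)) :=
    contDiff_fst.prodMk (contDiff_const.mul contDiff_snd.exp)
  have sF : ContDiff ℝ ∞ F := (contDiff_snd.exp.pow 1).mul (sF0.comp sq)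
  have sG : ContDiff ℝ ∞ G := (contDiff_snd.exp.pow 1).mul (sG0.comp sq)
  refine ⟨t₀, t₀ * a₀, fun x => (F x, G x), ht₀, by positivity, ⟨sF.prodMk sG, ?_⟩, ?_, ?_, ?_⟩
  · intro i
    obtain ⟨D₁, hD₁⟩ := hLOGB (fun y => -(t₀ * A₁ y)) t₀ 1 ht₀ sF0 (by intro θ t; simp only [pA₁]) i
    obtain ⟨D₂, hD₂⟩ := hLOGB (fun y => t₀ * B₁ y) t₀ 1 ht₀ sG0 (by intro θ t; simp only [pB₁]) i
    refine ⟨max D₁ D₂, ?_⟩
    intro x hx
    refine (pair_bound sF sG i x).trans ?_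
    have h1 := hD₁ x hx
    have h2 := hD₂ x hx
    rw [Nat.cast_one, one_mul] at h1 h2
    have he : 0 < Real.exp x.2 := Real.exp_pos _
    apply max_le
    · exact h1.trans (mul_le_mul_of_nonneg_right (le_max_left _ _) he.le)
    · exact h2.trans (mul_le_mul_of_nonneg_right (le_max_right _ _) he.le)
  · intro x
    have he : 0 < Real.exp x.2 := Real.exp_pos _
    show Real.exp x.2 ^ 1 * -(t₀ * A₁ (x.1, t₀ * Real.exp x.2)) ≤ 0
    have h := lA₁ (x.1, t₀ * Real.exp x.2)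
    have h' : 0 < A₁ (x.1, t₀ * Real.exp x.2) := lt_of_lt_of_le ha₀ h
    have : 0 < Real.exp x.2 ^ 1 * (t₀ * A₁ (x.1, t₀ * Real.exp x.2)) := by positivity
    linarith
  · intro x _
    have he : 0 < Real.exp x.2 := Real.exp_pos _
    show Real.exp x.2 ^ 1 * -(t₀ * A₁ (x.1, t₀ * Real.exp x.2)) ≤ -(t₀ * a₀) * Real.exp x.2
    have h := lA₁ (x.1, t₀ * Real.exp x.2)
    have h2 : t₀ * Real.exp x.2 * a₀ ≤ t₀ * Real.exp x.2 * A₁ (x.1, t₀ * Real.exp x.2) :=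
      mul_le_mul_of_nonneg_left h (by positivity)
    nlinarith
  · intro x hx
    have he : 0 < Real.exp x.2 := Real.exp_pos _
    have he1 : Real.exp x.2 ≤ 1 := Real.exp_le_one_iff.mpr hx
    have hb : bb (t₀ * Real.exp x.2) = 1 := by
      apply bb1
      rw [abs_of_pos (by positivity)]
      nlinarith
    have hAe : A₁ (x.1, t₀ * Real.exp x.2) = A (x.1, t₀ * Real.exp x.2) := by
      show bb (t₀ * Real.exp x.2) * A (x.1, t₀ * Real.exp x.2) + (1 - bb (t₀ * Real.exp x.2)) * a₀ = _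
      rw [hb]; ring
    have hCe : C₁ (x.1, t₀ * Real.exp x.2) = C (x.1, t₀ * Real.exp x.2) := by
      show 1 + bb (t₀ * Real.exp x.2) * (C (x.1, t₀ * Real.exp x.2) - 1) = _
      rw [hb]; ring
    rw [hSm]
    have hlog : Real.log (C (x.1, t₀ * Real.exp x.2)) = t₀ * Real.exp x.2 * B₁ (x.1, t₀ * Real.exp x.2) := by
      rw [← hCe]
      exact hB₁ x.1 (t₀ * Real.exp x.2)
    have hCpos : 0 < C (x.1, t₀ * Real.exp x.2) := by rw [← hCe]; exact posC₁ _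
    have hexp : Real.exp (Real.exp x.2 ^ 1 * (t₀ * B₁ (x.1, t₀ * Real.exp x.2))) = C (x.1, t₀ * Real.exp x.2) := by
      rw [← Real.exp_log hCpos, hlog]
      congr 1; ring
    refine Prod.ext ?_ ?_
    · show x.1 - t₀ * Real.exp x.2 * A (x.1, t₀ * Real.exp x.2) =
        x.1 + Real.exp x.2 ^ 1 * -(t₀ * A₁ (x.1, t₀ * Real.exp x.2))
      rw [hAe]; ring
    · show t₀ * Real.exp x.2 * C (x.1, t₀ * Real.exp x.2) =
        t₀ * Real.exp (x.2 + Real.exp x.2 ^ 1 * (t₀ * B₁ (x.1, t₀ * Real.exp x.2)))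
      rw [Real.exp_add, hexp]; ring

end Pool.Agent.H299.GX

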