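import Mathlib
import Pool.Agent.H242.GX.Stm5

/-!
# A germ of a projective involution of a line
-/

set_option autoImplicit false

open Set Filter Topology

namespace Pool.Agent.H299.GX

open Pool.Agent.H242.GX

theorem core {f : ℝ → ℝ} {ε a b c d δ : ℝ} (hanti : StrictAntiOn f (Icc (-ε) 0))
    (hmono : StrictMonoOn f (Icc 0 ε)) (hdet : a * d - b * c ≠ 0) (hδ : 0 < δ) (hδε : δ ≤ ε)
    (H : ∀ t : ℝ, |t| < δ → c * t + d ≠ 0 ∧ |(a * t + b) / (c * t + d)| ≤ ε ∧
      (t ≠ 0 → t * ((a * t + b) / (c * t + d)) < 0) ∧ f ((a * t + b) / (c * t + d)) = f t) :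
    ∃ k r : ℝ, 0 < r ∧ ∀ t : ℝ, |t| < r → 0 < 1 + k * t ∧ f (-t / (1 + k * t)) = f t := by
  have hd : d ≠ 0 := by
    have h := (H 0 (by rwa [abs_zero])).1
    rwa [mul_zero, zero_add] at h
  have hcont : ContinuousAt (fun t : ℝ => (a * t + b) / (c * t + d)) 0 := by
    refine ContinuousAt.div (by fun_prop) (by fun_prop) ?_
    rw [mul_zero, zero_add]
    exact hd
  have hv : (a * 0 + b) / (c * 0 + d) = b / d := by simp
  have hb0 : b / d = 0 := by
    rcases lt_trichotomy (b / d) 0 with h | h | h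
    · exfalso
      have e1 : ∀ᶠ t in 𝓝 (0 : ℝ), (a * t + b) / (c * t + d) < 0 :=
        hcont.eventually (gt_mem_nhds (by
          show (a * 0 + b) / (c * 0 + d) < 0
          rw [hv]
          exact h))
      obtain ⟨ρ, hρ, e2⟩ := Metric.eventually_nhds_iff.1 e1
      have hm : 0 < min ρ δ := lt_min hρ hδ
      have h1 : min ρ δ ≤ ρ := min_le_left _ _
      have h2 : min ρ δ ≤ δ := min_le_right _ _
      have e3 := e2 (y := -(min ρ δ / 2)) (by
        rw [Real.dist_eq, sub_zero, abs_neg, abs_of_pos (by linarith)]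
        linarith)
      have e4 := (H (-(min ρ δ / 2)) (by
        rw [abs_neg, abs_of_pos (by linarith)]
        linarith)).2.2.1 (by linarith)
      have e5 : 0 < -(min ρ δ / 2) * ((a * -(min ρ δ / 2) + b) / (c * -(min ρ δ / 2) + d)) :=
        mul_pos_of_neg_of_neg (by linarith) e3
      linarith
    · exact h
    · exfalso
      have e1 : ∀ᶠ t in 𝓝 (0 : ℝ), 0 < (a * t + b) / (c * t + d) :=
        hcont.eventually (lt_mem_nhds (by
          show 0 < (a * 0 + b) / (c * 0 + d)
          rw [hv]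
          exact h))
      obtain ⟨ρ, hρ, e2⟩ := Metric.eventually_nhds_iff.1 e1
      have hm : 0 < min ρ δ := lt_min hρ hδ
      have h1 : min ρ δ ≤ ρ := min_le_left _ _
      have h2 : min ρ δ ≤ δ := min_le_right _ _
      have e3 := e2 (y := min ρ δ / 2) (by
        rw [Real.dist_eq, sub_zero, abs_of_pos (by linarith)]
        linarith)
      have e4 := (H (min ρ δ / 2) (by
        rw [abs_of_pos (by linarith)]
        linarith)).2.2.1 (by linarith)
      have e5 : 0 < (min ρ δ / 2) * ((a * (min ρ δ / 2) + b) / (c * (min ρ δ / 2) + d)) :=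
        mul_pos (by linarith) e3
      linarith
  have hb : b = 0 := by
    rcases div_eq_zero_iff.1 hb0 with h | h
    · exact h
    · exact absurd h hd
  subst hb
  simp only [add_zero] at H hcont
  rw [zero_mul, sub_zero] at hdet
  -- small parameters
  have hc0 : Tendsto (fun t : ℝ => a * t / (c * t + d)) (𝓝 0) (𝓝 0) := by
    have h := hcont.tendsto
    simp only [mul_zero, zero_add, zero_div] at h
    exact h
  obtain ⟨ρ, hρ, e1⟩ := Metric.tendsto_nhds_nhds.1 hc0 δ hδ
  have key : ∀ t : ℝ, 0 < t → t < ρ → t < δ → a ^ 2 = c * (a + d) * t + d ^ 2 := by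
    intro t ht0 htρ htδ
    obtain ⟨g1, g2, g3, g4⟩ := H t (by rwa [abs_of_pos ht0])
    obtain ⟨s, hs⟩ : ∃ s : ℝ, s = a * t / (c * t + d) := ⟨_, rfl⟩
    rw [← hs] at g2 g3 g4
    have hsδ : |s| < δ := by
      have h := e1 (x := t) (by rwa [Real.dist_eq, sub_zero, abs_of_pos ht0])
      rwa [Real.dist_eq, sub_zero, ← hs] at h
    obtain ⟨g1', g2', g3', g4'⟩ := H s hsδ
    obtain ⟨u, hu⟩ : ∃ u : ℝ, u = a * s / (c * s + d) := ⟨_, rfl⟩
    rw [← hu] at g2' g3' g4'
    have hs0 : s < 0 := by
      have h := g3 ht0.ne'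
      by_contra hc
      have : 0 ≤ t * s := mul_nonneg ht0.le (not_lt.1 hc)
      linarith
    have hu0 : 0 < u := by
      have h := g3' hs0.ne
      by_contra hc
      have : 0 ≤ s * u := mul_nonneg_of_nonpos_of_nonpos hs0.le (not_lt.1 hc)
      linarith
    have hut : u = t := by
      refine hmono.injOn ⟨hu0.le, (le_abs_self u).trans g2'⟩ ⟨ht0.le, by linarith⟩ ?_
      rw [g4', g4]
    rw [hu, div_eq_iff g1'] at hut
    have hq : s * (c * t + d) = a * t := by rw [hs, div_mul_cancel₀ _ g1]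
    have hz : t * (a ^ 2 - (c * (a + d) * t + d ^ 2)) = 0 := by
      linear_combination (c * t + d) * hut - (a - t * c) * hq
    have hz2 := (mul_eq_zero.1 hz).resolve_left ht0.ne'
    linarith
  have hm : 0 < min ρ δ := lt_min hρ hδ
  have h1 : min ρ δ ≤ ρ := min_le_left _ _
  have h2 : min ρ δ ≤ δ := min_le_right _ _
  have k1 := key (min ρ δ / 2) (by linarith) (by linarith) (by linarith)
  have k2 := key (min ρ δ / 3) (by linarith) (by linarith) (by linarith)
  have k3 : c * (a + d) * (min ρ δ) = 0 := by linarith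
  have k4 : c * (a + d) = 0 := (mul_eq_zero.1 k3).resolve_right hm.ne'
  have k5 : a ^ 2 = d ^ 2 := by
    rw [k4] at k1
    linarith
  -- the sign
  have ha : a ≠ 0 := by
    intro h
    apply hdet
    rw [h, zero_mul]
  have k6 : a = -d := by
    rcases sq_eq_sq_iff_eq_or_eq_neg.1 k5 with h | h
    · exfalso
      have hc1 : c = 0 := by
        rw [h] at k4
        rcases mul_eq_zero.1 k4 with h' | h'
        · exact h'
        · exfalso
          apply hd
          linarith
      have g := (H (δ / 2) (by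
        rw [abs_of_pos (by linarith)]
        linarith)).2.2.1 (by linarith)
      rw [hc1, h, zero_mul, zero_add, mul_div_assoc, mul_div_cancel₀ _ hd] at g
      nlinarith
    · exact h
  have hk1 : 0 < |c / d| + 1 := by positivity
  refine ⟨c / d, min δ (1 / (|c / d| + 1)), lt_min hδ (by positivity), fun t ht => ?_⟩
  have t1 : |t| < δ := lt_of_lt_of_le ht (min_le_left _ _)
  have t2 : |t| < 1 / (|c / d| + 1) := lt_of_lt_of_le ht (min_le_right _ _)
  have t3 : |c / d * t| < 1 := by
    rw [abs_mul]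
    rw [lt_div_iff₀ hk1] at t2
    nlinarith [abs_nonneg t, abs_nonneg (c / d)]
  have t4 : 0 < 1 + c / d * t := by
    have := (abs_lt.1 t3).1
    linarith
  refine ⟨t4, ?_⟩
  obtain ⟨g1, -, -, g4⟩ := H t t1
  have t5 : -t / (1 + c / d * t) = a * t / (c * t + d) := by
    rw [div_eq_div_iff t4.ne' g1, k6]
    field_simp
    ring
  rw [t5]
  exact g4

theorem gx_SIGK : S_SIGK := by
  rintro U Y p v ⟨ε, hε, -, hanti, hmono, a, b, c, d, hdet, δ, hδ, hδε, H⟩
  exact core (f := fun t : ℝ => Y (p + t • v)) hanti hmono hdet hδ hδε H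

end Pool.Agent.H299.GX
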